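import Pool.Agent.W434.BW.StmA

/-!
BW-Z3: no ternary essential relation implies ternary absorbing.
-/

set_option autoImplicit false

namespace Pool.Agent.W337.BW

open Pool.Agent.W434.BW

lemma terms {Ω : Type} {ar : Ω → ℕ} {X : Type} (a : Alg ar X) (C : Set X)
    (hC : Sub a C) (hE : ∀ S : Set (Fin 3 → X), ¬ Ess a C (Fin 3) S) (n : ℕ) :
    ∀ J : Finset (Fin 3 × (Fin 3 → X)), J.card = n → (∀ r ∈ J, ∀ j, j ≠ r.1 → r.2 j ∈ C) →
      ∃ t : Tm ar (Fin 3), ∀ r ∈ J, t.ev a r.2 ∈ C := by
  classical
  induction n using Nat.strong_induction_on with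
  | _ n ih =>
    intro J hJn hJ
    by_cases h3 : 2 < J.card
    · obtain ⟨r0, h0, r1, h1, r2, h2, h01, h02, h12⟩ := Finset.two_lt_card.1 h3
      set ρ : Fin 3 → Fin 3 × (Fin 3 → X) := ![r0, r1, r2] with hρ
      have hρJ : ∀ m, ρ m ∈ J := by
        intro m
        fin_cases m
        · exact h0
        · exact h1
        · exact h2
      have hinj : ∀ i j, ρ j = ρ i → j = i := by
        intro i j hij
        fin_cases i <;> fin_cases j <;> first
          | rfl
          | exact absurd hij h01
          | exact absurd hij h02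
          | exact absurd hij h12
          | exact absurd hij.symm h01
          | exact absurd hij.symm h02
          | exact absurd hij.symm h12
      have ht : ∀ m, ∃ t : Tm ar (Fin 3), ∀ r ∈ J.erase (ρ m), t.ev a r.2 ∈ C := by
        intro m
        refine ih (J.erase (ρ m)).card ?_ _ rfl fun r hr => hJ r (Finset.mem_of_mem_erase hr)
        rw [← hJn]
        exact Finset.card_erase_lt_of_mem (hρJ m)
      choose t ht using ht
      by_contra hcon
      push Not at hcon
      apply hE {s : Fin 3 → X | ∃ t : Tm ar (Fin 3),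
        (∀ r ∈ J, (∀ m, r ≠ ρ m) → t.ev a r.2 ∈ C) ∧ ∀ m, s m = t.ev a (ρ m).2}
      refine ⟨?_, ?_, ?_⟩
      · intro ω z hz
        choose tt h4 h5 using hz
        refine ⟨.app ω tt, fun r hr hrm => hC ω _ fun i => h4 i r hr hrm, fun m => ?_⟩
        show a ω (fun i => z i m) = a ω (fun i => (tt i).ev a (ρ m).2)
        congr 1
        funext i
        exact h5 i m
      · rintro s ⟨t', h4, h5⟩ h6
        obtain ⟨r, hr, hrC⟩ := hcon t'
        apply hrC
        by_cases h7 : ∀ m, r ≠ ρ m
        · exact h4 r hr h7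
        · push Not at h7
          obtain ⟨m, rfl⟩ := h7
          rw [← h5 m]
          exact h6 m
      · intro i
        refine ⟨fun m => (t i).ev a (ρ m).2, ⟨t i, fun r hr hrm =>
          ht i r (Finset.mem_erase.2 ⟨hrm i, hr⟩), fun m => rfl⟩, fun j hj => ?_⟩
        exact ht i (ρ j) (Finset.mem_erase.2 ⟨fun h => hj (hinj i j h), hρJ j⟩)
    · have h4 : ∃ i : Fin 3, i ∉ J.image Prod.fst := by
        by_contra hcon
        push Not at hcon
        have h5 : (Finset.univ : Finset (Fin 3)) ⊆ J.image Prod.fst := fun i _ => hcon i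
        have h6 := Finset.card_le_card h5
        have h7 : (J.image Prod.fst).card ≤ J.card := Finset.card_image_le
        simp at h6
        omega
      obtain ⟨i, hi⟩ := h4
      refine ⟨.var i, fun r hr => hJ r hr i fun h => hi ?_⟩
      rw [h]
      exact Finset.mem_image_of_mem _ hr

theorem z3 : S_z3 := by
  classical
  intro Ω ar X _ a C hC hE
  have : Fintype X := Fintype.ofFinite X
  obtain ⟨t, ht⟩ := terms a C hC hE _
    (Finset.univ.filter fun r : Fin 3 × (Fin 3 → X) => ∀ j, j ≠ r.1 → r.2 j ∈ C) rfl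
    (fun r hr => (Finset.mem_filter.1 hr).2)
  refine ⟨t, fun c hc d hd x => ⟨?_, ?_, ?_⟩⟩
  · refine ht (2, ![c, d, x]) (Finset.mem_filter.2 ⟨Finset.mem_univ _, fun j hj => ?_⟩)
    fin_cases j
    · exact hc
    · exact hd
    · exact absurd rfl hj
  · refine ht (1, ![c, x, d]) (Finset.mem_filter.2 ⟨Finset.mem_univ _, fun j hj => ?_⟩)
    fin_cases j
    · exact hc
    · exact absurd rfl hj
    · exact hd
  · refine ht (0, ![x, c, d]) (Finset.mem_filter.2 ⟨Finset.mem_univ _, fun j hj => ?_⟩)
    fin_cases j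
    · exact absurd rfl hj
    · exact hc
    · exact hd

end Pool.Agent.W337.BW
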